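import Mathlib
import Pool.Agent.Results.MP_b7335c_lc.TwoProbePowerSaving
import Pool.Agent.Y497.BP.Ex

set_option autoImplicit false

namespace Pool.Agent.Results.MP_b7335c_lc.TwoProbeFixedTypeWords

open Pool.Agent.Results.MP_b7335c_lc.TwoProbePowerSaving

theorem mono_exponent {a b : ℝ} (hab : a ≤ b)
    (h : ∃ K : ℝ, ∀ m : ℕ, 1 ≤ m → (minSpace 2 m : ℝ) ≤ K * (m : ℝ) ^ a) :
    ∃ K : ℝ, ∀ m : ℕ, 1 ≤ m → (minSpace 2 m : ℝ) ≤ K * (m : ℝ) ^ b := by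
  obtain ⟨K, hK⟩ := h
  refine ⟨|K|, fun m hm => ?_⟩
  have hm1 : (1 : ℝ) ≤ m := by exact_mod_cast hm
  calc (minSpace 2 m : ℝ) ≤ K * (m : ℝ) ^ a := hK m hm
    _ ≤ |K| * (m : ℝ) ^ a := mul_le_mul_of_nonneg_right (le_abs_self K) (by positivity)
    _ ≤ |K| * (m : ℝ) ^ b :=
        mul_le_mul_of_nonneg_left (Real.rpow_le_rpow_of_exponent_le hm1 hab) (abs_nonneg K)

theorem little_o {a b : ℝ} (hab : a < b)
    (h : ∃ K : ℝ, ∀ m : ℕ, 1 ≤ m → (minSpace 2 m : ℝ) ≤ K * (m : ℝ) ^ a) (c : ℝ) (hc : 0 < c) :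
    ∃ M : ℕ, ∀ m ≥ M, (minSpace 2 m : ℝ) < c * (m : ℝ) ^ b := by
  obtain ⟨K, hK⟩ := h
  have h1 := (tendsto_rpow_atTop (sub_pos.2 hab)).comp
    (tendsto_natCast_atTop_atTop (R := ℝ))
  obtain ⟨M, hM⟩ := Filter.eventually_atTop.1 (h1.eventually_gt_atTop (K / c))
  refine ⟨max M 1, fun m hm => ?_⟩
  have hm1 : 1 ≤ m := le_trans (le_max_right _ _) hm
  have hm1' : (0 : ℝ) < m := by exact_mod_cast hm1
  have h2 := hM m (le_trans (le_max_left _ _) hm)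
  simp only [Function.comp_apply] at h2
  rw [div_lt_iff₀ hc, Real.rpow_sub hm1', div_mul_eq_mul_div, lt_div_iff₀ (by positivity)] at h2
  calc (minSpace 2 m : ℝ) ≤ K * (m : ℝ) ^ a := hK m hm1
    _ < (m : ℝ) ^ b * c := h2
    _ = c * (m : ℝ) ^ b := mul_comm _ _

/-- Two adaptive bitprobes, sets of size at most two: space `O(m^(22/35))`, `22/35 = 0.6285...`.
In particular the space is `o(m^(2/3))` (for all `m`, not only along a sequence), and also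
`o(m^(log 8 / log 24))`, the exponent of the group construction. -/
theorem result :
    (∃ K : ℝ, ∀ m : ℕ, 1 ≤ m → (minSpace 2 m : ℝ) ≤ K * (m : ℝ) ^ (22 / 35 : ℝ)) ∧
    (∀ c : ℝ, 0 < c → ∃ M : ℕ, ∀ m ≥ M, (minSpace 2 m : ℝ) < c * (m : ℝ) ^ (2 / 3 : ℝ)) ∧
    (¬ ∃ c : ℝ, 0 < c ∧ ∃ M : ℕ, ∀ m ≥ M, c * (m : ℝ) ^ (2 / 3 : ℝ) ≤ (minSpace 2 m : ℝ)) ∧
    (∀ c : ℝ, 0 < c → ∃ M : ℕ, ∀ m ≥ M,
      (minSpace 2 m : ℝ) < c * (m : ℝ) ^ (Real.log 8 / Real.log 24)) ∧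
    (22 / 35 : ℝ) < Real.log 8 / Real.log 24 ∧ Real.log 8 / Real.log 24 < (2 / 3 : ℝ) := by
  have h0 : ∃ K : ℝ, ∀ m : ℕ, 1 ≤ m → (minSpace 2 m : ℝ) ≤ K * (m : ℝ) ^ (22 / 35 : ℝ) :=
    mono_exponent (le_of_eq (by norm_num)) Pool.Agent.Y497.BP.Ex.exponent
  have h1 : (22 / 35 : ℝ) < Real.log 8 / Real.log 24 := by
    rw [lt_div_iff₀ (Real.log_pos (by norm_num))]
    have h2 : (13 : ℝ) * Real.log 24 = Real.log (24 ^ 13) := by rw [Real.log_pow]; push_cast; ring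
    have h3 : (20 : ℝ) * Real.log 8 = Real.log (8 ^ 20) := by rw [Real.log_pow]; push_cast; ring
    have h4 : Real.log (24 ^ 13) < Real.log (8 ^ 20) :=
      Real.log_lt_log (by norm_num) (by norm_num)
    have h5 : 0 < Real.log 24 := Real.log_pos (by norm_num)
    nlinarith
  have h2 : Real.log 8 / Real.log 24 < (2 / 3 : ℝ) :=
    Pool.Agent.Results.MP_b7335c_lc.TwoProbePowerSaving.result.2.2.2
  have h3 := little_o (h1.trans h2) h0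
  refine ⟨h0, h3, ?_, little_o h1 h0, h1, h2⟩
  rintro ⟨c, hc, M, hM⟩
  obtain ⟨M', hM'⟩ := h3 c hc
  have e1 := hM (max M M') (le_max_left _ _)
  have e2 := hM' (max M M') (le_max_right _ _)
  linarith

end Pool.Agent.Results.MP_b7335c_lc.TwoProbeFixedTypeWords
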